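import Mathlib
import Pool.Agent.Lib.helper9.Derand

set_option autoImplicit false

namespace Pool.Agent.H.MP_83af8b_an

open Set Filter Topology MeasureTheory Function
open scoped ENNReal Classical

theorem marker {X ι : Type} [MeasurableSpace X] [StandardBorelSpace X] (μ : Measure X)
    [IsProbabilityMeasure μ] [Fintype ι] (τ : ι → X → X) (hτ : ∀ i, Measurable (τ i))
    (h : ∀ᵐ x ∂μ, Injective fun i => τ i x) {p : ℝ} (p0 : 0 ≤ p) (p1 : p ≤ 1) (K : ℝ) {ε : ℝ} (e0 : 0 < ε) :
    ∃ W, MeasurableSet W ∧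
      K * μ.real W + μ.real {x | ∀ i, τ i x ∉ W} ≤ p * K + (1 - p) ^ Fintype.card ι + ε := by
  obtain ⟨e, e1, e2⟩ := MeasurableSpace.measurable_injection_nat_bool_of_countablySeparated X
  let c : (n : ℕ) → X → Fin n → Bool := fun n x i => e x i
  have mc : ∀ n, Measurable (c n) := fun n => by fun_prop
  let g : (n : ℕ) → X → ι → Fin n → Bool := fun n x i => c n (τ i x)
  have mg : ∀ n, Measurable (g n) := fun n => measurable_pi_lambda _ fun i => (mc n).comp (hτ i)
  have t : Tendsto (fun n => μ (g n ⁻¹' {s | ¬Injective s})) atTop (𝓝 (μ ∅)) :=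
    tendsto_measure_of_ae_tendsto_indicator_of_isFiniteMeasure atTop .empty (fun n => mg n .of_discrete) (by
      filter_upwards [h] with x hx
      have : ∀ᶠ n in atTop, ∀ i j, c n (τ i x) = c n (τ j x) → i = j :=
        eventually_all.2 fun i => eventually_all.2 fun j => by
          by_cases q : i = j
          · simp [q]
          obtain ⟨k, hk⟩ := ne_iff.1 (e2.ne (hx.ne q))
          exact (eventually_gt_atTop k).mono fun n hn a => (hk (congrFun a ⟨k, hn⟩)).elim
      exact this.mono fun n a => by simpa using show Injective (g n x) from fun i j => a i j)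
  obtain ⟨n, hn⟩ := (t.eventually (gt_mem_nhds (show μ ∅ < .ofReal ε by simpa))).exists
  obtain ⟨C, -, k⟩ := Lib.helper9.derand Finset.univ (fun a => K * μ.real (c n ⁻¹' {a}))
    (fun s => μ.real (g n ⁻¹' {s})) (fun s => Finset.univ.image s) p0 p1 Finset.univ
  have s1 := fun s => sum_measureReal_preimage_singleton (μ := μ) s fun y _ => mc n (measurableSet_singleton y)
  have s2 := fun s => sum_measureReal_preimage_singleton (μ := μ) s fun y _ => mg n (measurableSet_singleton y)
  simp only [← Finset.mul_sum, s1, s2, Finset.coe_univ, preimage_univ, probReal_univ, Finset.inter_univ] at k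
  refine ⟨c n ⁻¹' C, mc n .of_discrete, le_trans (le_of_eq ?_) (k.trans ?_)⟩
  · congr 2
    ext x
    simp [Finset.disjoint_left, g]
  have := Finset.sum_le_sum (s := Finset.univ)
    (f := fun s => μ.real (g n ⁻¹' {s}) * (1 - p) ^ (Finset.univ.image s).card)
    (g := fun s => μ.real (g n ⁻¹' {s}) * (1 - p) ^ Fintype.card ι +
      if ¬Injective s then μ.real (g n ⁻¹' {s}) else 0) fun s _ => by
    have := sub_nonneg.2 p1
    by_cases q : Injective s
    · simp [q, Finset.card_image_of_injective]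
    · rw [if_pos q]
      exact (mul_le_of_le_one_right measureReal_nonneg (pow_le_one₀ this (by linarith))).trans
        (le_add_of_nonneg_left (by positivity))
  rw [Finset.sum_add_distrib, ← Finset.sum_mul, ← Finset.sum_filter, s2, s2] at this
  have q := ENNReal.toReal_lt_of_lt_ofReal hn
  simp only [Finset.coe_univ, preimage_univ, probReal_univ, Finset.coe_filter, Finset.mem_univ,
    true_and] at this
  rw [← measureReal_def] at q
  linarith

instance : IsProbabilityMeasure (volume : Measure UnitAddCircle) := ⟨UnitAddCircle.measure_univ⟩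

theorem mp {k : ℕ} (h : k ≠ 0) : MeasurePreserving (fun x : UnitAddCircle => k • x) := by
  simpa using Measure.measurePreserving_zsmul (volume : Measure UnitAddCircle) (n := k) (by simpa)

theorem rokhlin {u v : ℝ} (u0 : 2⁻¹ ≤ u) (u1 : u ≤ 2) (v0 : 2⁻¹ ≤ v) (v1 : v ≤ 2) (D : ℕ) :
    ∃ φ : UnitAddCircle → ℝ, Measurable φ ∧ ∃ B, MeasurableSet B ∧ volume.real B ≤ 2⁻¹ ∧
      ∀ x ∉ B, ∀ a < D, ∀ b < D, φ ((2 ^ a * 3 ^ b) • x) = φ x - (u * a + v * b) := by
  obtain ⟨R, hR⟩ := ((tendsto_natCast_atTop_atTop (R := ℝ)).eventually_ge_atTop (1200 * (D + 1))).exists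
  have R1 : (1200 : ℝ) ≤ R := by nlinarith [D.cast_nonneg (α := ℝ)]
  let Z := (Finset.range (8 * R + 1) ×ˢ Finset.range (8 * R + 1)).filter fun z => z.1 < D ∨ z.2 < D
  have z : (Z.card : ℝ) ≤ 18 * D * R := by
    have : Z ⊆ Finset.range D ×ˢ Finset.range (8 * R + 1) ∪ Finset.range (8 * R + 1) ×ˢ Finset.range D := by
      intro z; simp [Z]; tauto
    have := (Finset.card_le_card this).trans (Finset.card_union_le _ _)
    simp only [Finset.card_product, Finset.card_range] at this
    have : (Z.card : ℝ) ≤ D * (8 * R + 1) + (8 * R + 1) * D := by exact_mod_cast this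
    nlinarith [D.cast_nonneg (α := ℝ)]
  have n : ∀ a b : ℕ, 2 ^ a * 3 ^ b ≠ 0 := fun a b => by positivity
  obtain ⟨W, w1, w2⟩ := marker volume (fun (i : Fin R × Fin R) (x : UnitAddCircle) => (2 ^ i.1.1 * 3 ^ i.2.1) • x)
    (fun i => (mp (n _ _)).measurable) (ae_all_iff.2 fun i => ae_all_iff.2 fun j => by
      by_cases q : i = j
      · simp [q]
      have y : ((2 ^ i.1.1 * 3 ^ i.2.1 : ℕ) - (2 ^ j.1.1 * 3 ^ j.2.1 : ℕ) : ℤ) ≠ 0 := fun h => q (by
        have h := Nat.cast_injective (sub_eq_zero.1 h)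
        have a := congrArg (·.factorization 2) h
        have b := congrArg (·.factorization 3) h
        simp [Nat.factorization_mul, Nat.prime_two.factorization, Nat.prime_three.factorization] at a b
        ext <;> assumption)
      have : NullSingletonClass (volume : Measure UnitAddCircle) := ⟨fun x => by
        simpa using AddCircle.volume_closedBall 1 (x := x) 0⟩
      filter_upwards [(Measure.measurePreserving_zsmul volume y).quasiMeasurePreserving.ae
        (Measure.ae_ne (volume : Measure UnitAddCircle) 0)] with x hx e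
      exact (hx (by rw [sub_zsmul, natCast_zsmul, natCast_zsmul, e]; simp)).elim)
    (p := (120 * (D + 1) * R : ℝ)⁻¹) (by positivity) (inv_le_one_of_one_le₀ (by nlinarith [D.cast_nonneg (α := ℝ)]))
    Z.card (ε := 5⁻¹) (by norm_num)
  let ψ : UnitAddCircle → ℝ≥0∞ := fun x => ⨅ z : ℕ × ℕ,
    if (2 ^ z.1 * 3 ^ z.2) • x ∈ W then .ofReal (u * z.1 + v * z.2) else ⊤
  have m : ∀ a b : ℕ, MeasurableSet ((fun x : UnitAddCircle => (2 ^ a * 3 ^ b) • x) ⁻¹' W) :=
    fun a b => (mp (n a b)).measurable w1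
  refine ⟨fun x => (ψ x).toReal, (Measurable.iInf fun z => .ite (m _ _) measurable_const
    measurable_const).ennreal_toReal, (⋃ z ∈ Z, (fun x => (2 ^ z.1 * 3 ^ z.2) • x) ⁻¹' W) ∪
      {x | ∀ i : Fin R × Fin R, (2 ^ i.1.1 * 3 ^ i.2.1) • x ∉ W}, (Finset.measurableSet_biUnion _ fun z _ =>
        m _ _).union (by simp only [ofPred_forall]; exact .iInter fun i => (m _ _).compl), ?_,
    fun x hx a ha b hb => ?_⟩
  · refine (measureReal_union_le _ _).trans (le_trans (add_le_add_left ((measureReal_biUnion_finset_le _ _).trans_eq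
      ?_) _) (w2.trans ?_))
    · simp [(mp (n _ _)).measureReal_preimage w1.nullMeasurableSet]
    have d : (0 : ℝ) < D + 1 := by positivity
    have a : (120 * (D + 1) * R : ℝ)⁻¹ * Z.card ≤ 3 / 20 := by
      rw [inv_mul_le_iff₀ (by positivity)]; nlinarith
    have b : (1 - (120 * (D + 1) * R : ℝ)⁻¹) ^ Fintype.card (Fin R × Fin R) ≤ 10⁻¹ := by
      refine (pow_le_pow_left₀ (sub_nonneg.2 (inv_le_one_of_one_le₀ (by nlinarith)))
        (Real.one_sub_le_exp_neg _) _).trans ?_
      rw [← Real.exp_nat_mul, mul_neg, Real.exp_neg]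
      refine inv_anti₀ (by norm_num) (le_trans ?_ (Real.add_one_le_exp _))
      simp only [Fintype.card_prod, Fintype.card_fin, Nat.cast_mul]
      rw [← div_eq_mul_inv, ← sub_le_iff_le_add, le_div_iff₀ (by positivity)]
      nlinarith
    linarith
  simp only [mem_union, mem_iUnion, mem_preimage, not_or, not_exists, mem_ofPred_eq, not_forall, not_not] at hx
  obtain ⟨h, ⟨i, j⟩, w⟩ := hx
  have i1 : (i : ℝ) ≤ R := by exact_mod_cast i.2.le
  have j1 : (j : ℝ) ≤ R := by exact_mod_cast j.2.le
  have k : ∀ c d : ℕ, (2 ^ c * 3 ^ d) • x ∈ W → u * c + v * d ≤ u * i + v * j →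
      ψ ((2 ^ a * 3 ^ b) • x) + .ofReal (u * a + v * b) ≤ .ofReal (u * c + v * d) := fun c d e f => by
    have c0 := c.cast_nonneg (α := ℝ)
    have d0 := d.cast_nonneg (α := ℝ)
    have : (c : ℝ) ≤ 8 * R ∧ (d : ℝ) ≤ 8 * R := by constructor <;> nlinarith
    have : ¬(c < D ∨ d < D) := fun g => h (c, d) (by
      simp only [Z, Finset.mem_filter, Finset.mem_product, Finset.mem_range, Nat.lt_succ_iff]
      exact ⟨by exact_mod_cast this, g⟩) e
    obtain ⟨c, rfl⟩ : ∃ c', c = c' + a := ⟨c - a, by omega⟩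
    obtain ⟨d, rfl⟩ : ∃ d', d = d' + b := ⟨d - b, by omega⟩
    refine (add_le_add_left (iInf_le _ (c, d)) _).trans_eq ?_
    rw [if_pos (by rwa [smul_smul, mul_mul_mul_comm, ← pow_add, ← pow_add]), ← ENNReal.ofReal_add
      (by positivity) (by positivity)]
    push_cast
    ring_nf
  have e : ψ ((2 ^ a * 3 ^ b) • x) + .ofReal (u * a + v * b) = ψ x := by
    refine le_antisymm (le_iInf fun z => ?_) ?_
    · split_ifs with q
      · rcases le_total (u * z.1 + v * z.2) (u * i + v * j) with r | r
        exacts [k _ _ q r, (k _ _ w le_rfl).trans (ENNReal.ofReal_le_ofReal r)]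
      exact le_top
    rw [ENNReal.iInf_add]
    refine le_iInf fun z => (iInf_le _ (z.1 + a, z.2 + b)).trans ?_
    rw [smul_smul, mul_mul_mul_comm, ← pow_add, ← pow_add]
    split_ifs
    · rw [← ENNReal.ofReal_add (by positivity) (by positivity)]
      push_cast
      ring_nf
      rfl
    simp
  have f := ne_top_of_le_ne_top ENNReal.ofReal_ne_top (le_self_add.trans (k _ _ w le_rfl))
  beta_reduce
  rw [← e, ENNReal.toReal_add f ENNReal.ofReal_ne_top, ENNReal.toReal_ofReal (by positivity)]
  ring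

end Pool.Agent.H.MP_83af8b_an
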