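import Mathlib
import Pool.Agent.H.MP_83af8b_an.A

set_option autoImplicit false

namespace Pool.Agent.H.MP_83af8b_an

open Set Filter Topology MeasureTheory Function
open scoped ENNReal Classical

/-- Khintchin sequence -/
def Khin (l : ℕ → ℕ) : Prop :=
  ∀ f : UnitAddCircle → ℝ, Integrable f → ∀ᵐ x : UnitAddCircle,
    Tendsto (fun N : ℕ => (∑ n ∈ Finset.range N, f (l n • x)) / N) atTop (𝓝 (∫ y, f y))

/-- products -/
def pr (ω : ℕ → ℕ) (n : ℕ) : ℕ := ∏ i ∈ Finset.range (n + 1), ω i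

/-- a small set with large averages -/
def Bad (l : ℕ → ℕ) (j N : ℕ) : Prop :=
  ∃ E B : Set UnitAddCircle, MeasurableSet E ∧ MeasurableSet B ∧ volume.real E ≤ 8⁻¹ / 2 / 2 ^ j ∧
    volume.real B ≤ 2⁻¹ ∧ ∀ x ∉ B, ∃ M ∈ Ioc j N, M ≤ 4 * Nat.count (fun n => l n • x ∈ E) M

theorem not_khin {l : ℕ → ℕ} (h : ∀ j, ∃ N, Bad l j N) (k : Khin l) : False := by
  choose N E B e b e1 b1 h using h
  have m := MeasurableSet.iUnion e
  have s : volume.real (⋃ j, E j) ≤ 8⁻¹ := by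
    refine ENNReal.toReal_le_of_le_ofReal (by norm_num) ((measure_iUnion_le _).trans ?_)
    rw [← tsum_geometric_two' 8⁻¹, ENNReal.ofReal_tsum_of_nonneg (fun _ => by positivity)
      (summable_geometric_two' _)]
    exact ENNReal.tsum_le_tsum fun j => (ENNReal.le_ofReal_iff_toReal_le (by simp) (by positivity)).2 (e1 j)
  have a : ∀ᵐ x : UnitAddCircle, x ∈ ⋃ J, ⋂ j ≥ J, B j := by
    filter_upwards [k _ ((integrable_const (1 : ℝ)).indicator m)] with x hx
    rw [integral_indicator_const _ m, smul_eq_mul, mul_one] at hx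
    obtain ⟨J, hJ⟩ := eventually_atTop.1 (hx.eventually (gt_mem_nhds (show _ < 4⁻¹ by linarith)))
    refine mem_iUnion.2 ⟨J, mem_iInter₂.2 fun j hj => by_contra fun n => ?_⟩
    obtain ⟨M, m1, m2⟩ := h j x n
    refine (hJ M (hj.trans m1.1.le)).not_ge ((le_div_iff₀ (by exact_mod_cast m1.1.pos)).2 ?_)
    have : (Nat.count (fun n => l n • x ∈ E j) M : ℝ) ≤
        ∑ n ∈ Finset.range M, (⋃ j, E j).indicator (fun _ => (1 : ℝ)) (l n • x) := by
      rw [Nat.count_eq_card_filter_range, Finset.natCast_card_filter]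
      refine Finset.sum_le_sum fun n _ => ?_
      split_ifs with q
      · rw [indicator_of_mem (mem_iUnion.2 ⟨j, q⟩)]
      exact indicator_nonneg (by simp) _
    have : (M : ℝ) ≤ 4 * Nat.count (fun n => l n • x ∈ E j) M := by exact_mod_cast m2
    linarith
  have := le_of_tendsto' (tendsto_measure_iUnion_atTop (μ := volume) (s := fun J => ⋂ j ≥ J, B j)
    fun I J i => biInter_subset_biInter_left fun j hj => le_trans i hj) fun J =>
      (measure_mono (biInter_subset_of_mem (mem_Ici.2 le_rfl))).trans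
        ((ENNReal.le_ofReal_iff_toReal_le (by simp) (by norm_num)).2 (b1 J))
  have a := (prob_compl_eq_zero_iff (s := ⋃ J, ⋂ j ≥ J, B j)
    (.iUnion fun J => .biInter (to_countable (Ici J)) fun j _ => b j)).1 a
  rw [a] at this
  norm_num at this

theorem sweep {l a b : ℕ → ℕ} {P : ℕ} (P0 : P ≠ 0) {u v : ℝ} (u0 : 2⁻¹ ≤ u) (u1 : u ≤ 2) (v0 : 2⁻¹ ≤ v)
    (v1 : v ≤ 2) {j N : ℕ} (h : ∀ t : ℝ, ∃ M ∈ Ioc j N, M ≤ 4 * Nat.count (fun n => l n = P * 2 ^ a n * 3 ^ b n ∧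
      ‖((u * a n + v * b n - t : ℝ) : UnitAddCircle)‖ ≤ 8⁻¹ / 4 / 2 ^ j) M) : Bad l j N := by
  obtain ⟨φ, f, B, b1, b2, k⟩ := rokhlin u0 u1 v0 v1 ((Finset.range N).sup (a + b) + 1)
  let θ : UnitAddCircle → UnitAddCircle := fun x => φ x
  have t : Measurable θ := AddCircle.measurable_mk'.comp f
  obtain ⟨c, hc⟩ : ∃ c, volume (θ ⁻¹' Metric.closedBall c (8⁻¹ / 4 / 2 ^ j)) ≤ .ofReal (8⁻¹ / 2 / 2 ^ j) := by
    have m : MeasurableSet {z : UnitAddCircle × UnitAddCircle | dist (θ z.2) z.1 ≤ 8⁻¹ / 4 / 2 ^ j} :=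
      measurableSet_le (by fun_prop) measurable_const
    obtain ⟨c, hc⟩ := exists_le_lintegral (measurable_measure_prodMk_left (ν := volume) m).aemeasurable
      (μ := volume)
    refine ⟨c, hc.trans ?_⟩
    rw [← Measure.prod_apply m, Measure.prod_apply_symm m]
    refine (lintegral_mono (g := fun _ => .ofReal (8⁻¹ / 2 / 2 ^ j)) fun x => ?_).trans (by simp)
    refine le_trans (le_of_eq ?_) ((AddCircle.volume_closedBall 1 (x := θ x) (8⁻¹ / 4 / 2 ^ j)).trans_le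
      (ENNReal.ofReal_le_ofReal ((min_le_right _ _).trans_eq (by ring))))
    congr
    ext
    simp [dist_comm]
  obtain ⟨c, rfl⟩ := QuotientAddGroup.mk_surjective c
  refine ⟨_, (P • ·) ⁻¹' B, t measurableSet_closedBall, (mp P0).measurable b1,
    ENNReal.toReal_le_of_le_ofReal (by positivity) hc, by
      rwa [(mp P0).measureReal_preimage b1.nullMeasurableSet], fun x hx => ?_⟩
  obtain ⟨M, m1, m2⟩ := h (φ (P • x) - c)
  refine ⟨M, m1, m2.trans (Nat.mul_le_mul_left _ (Nat.count_mono_left fun n hn ⟨e, g⟩ => ?_))⟩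
  have : a n + b n ≤ _ := Finset.le_sup (f := a + b) (Finset.mem_range.2 (hn.trans_le m1.2))
  rw [mem_preimage, mem_closedBall_iff_norm', e, mul_assoc, mul_comm, mul_smul]
  simp only [θ]
  rw [k _ hx _ (by omega) _ (by omega), ← AddCircle.coe_sub]
  rwa [show c - (φ (P • x) - (u * a n + v * b n)) = u * a n + v * b n - (φ (P • x) - c) by ring]

theorem nrm {x r : ℝ} (k : ℤ) (h : |x - k| ≤ r) : ‖(x : UnitAddCircle)‖ ≤ r := by
  rw [UnitAddCircle.norm_eq]
  exact (round_le x k).trans h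

theorem cnt {p : ℕ → Prop} [DecidablePred p] {a b : ℕ} (h : ∀ n < b, p (a + n)) : b ≤ Nat.count p (a + b) := by
  rw [Nat.count_add, Nat.count_iff_forall.2 h]
  omega

theorem block (ω : ℕ → ℕ) (h : ∀ i, ω i ≠ 0) (N j : ℕ) : ∃ η : ℕ → ℕ, (∀ i < N, η i = ω i) ∧
    (∀ i ≥ N, η i = 2 ∨ η i = 3) ∧ ∃ M, Bad (pr η) j M := by
  let η : ℕ → ℕ := fun i => if i < N then ω i else if Nat.log 2 (i + 1) = Nat.log 2 i then 2 else 3
  have lg : ∀ i, Nat.log 2 (i + 1) = Nat.log 2 i ∨ Nat.log 2 (i + 1) = Nat.log 2 i + 1 := fun i => by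
    have := Nat.log_mono_right (b := 2) (i.le_add_right 1)
    have : Nat.log 2 (i + 1) ≤ Nat.log 2 i + 1 := by
      rcases i.eq_zero_or_pos with rfl | h
      · simp
      rw [← Nat.log_mul_base one_lt_two h.ne']
      exact Nat.log_mono_right (by omega)
    omega
  have e : ∀ n, ∃ a, ∏ i ∈ Finset.range (N + n), η i =
      (∏ i ∈ Finset.range N, ω i) * 2 ^ a * 3 ^ (Nat.log 2 (N + n) - Nat.log 2 N) := fun n => by
    induction n with
    | zero => exact ⟨0, by simpa using Finset.prod_congr rfl fun i hi => if_pos (Finset.mem_range.1 hi)⟩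
    | succ n i =>
      obtain ⟨a, i⟩ := i
      have := Nat.log_mono_right (b := 2) (N.le_add_right n)
      rw [← add_assoc, Finset.prod_range_succ, i]
      simp only [η, if_neg (N.le_add_right n).not_gt]
      rcases lg (N + n) with q | q
      · exact ⟨a + 1, by rw [if_pos q, q]; ring⟩
      · exact ⟨a, by rw [if_neg (by omega), q, Nat.sub_add_comm this]; ring⟩
  choose a e using e
  refine ⟨η, fun i hi => if_pos hi, fun i hi => by simp only [η]; split_ifs <;> omega,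
    2 ^ (N + j + 1 + 32 * 2 ^ j), sweep (a := fun n => a (n + 1 - N))
    (b := fun n => Nat.log 2 (n + 1) - Nat.log 2 N) (P := ∏ i ∈ Finset.range N, ω i)
    (Finset.prod_ne_zero_iff.2 fun i _ => h i) (u := 1)
    (v := 1 + (32 * 2 ^ j)⁻¹) (by norm_num) one_le_two (by linarith [show (0 : ℝ) ≤ (32 * 2 ^ j)⁻¹ by positivity])
    (by linarith [inv_le_one_of_one_le₀ (show (1 : ℝ) ≤ 32 * 2 ^ j by linarith [one_le_pow₀ (n := j) (one_le_two (α := ℝ))])])
    fun t => ?_⟩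
  generalize hq : 32 * 2 ^ j = q
  have q0 : (0 : ℝ) < q := by rw [← hq]; positivity
  have q1 : (32 * 2 ^ j : ℝ) = q := by exact_mod_cast hq
  let s := Int.fract (t - (N + j - Nat.log 2 N : ℕ) / q)
  let i := N + j + ⌊s * q⌋₊
  have i1 : ⌊s * q⌋₊ < q := (Nat.floor_lt (mul_nonneg (Int.fract_nonneg _) q0.le)).2
    (mul_lt_of_lt_one_left q0 (Int.fract_lt_one _))
  have i2 : i < 2 ^ i := Nat.lt_two_pow_self
  have i3 := Nat.pow_le_pow_right two_pos (show i + 1 ≤ N + j + 1 + q by omega)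
  have i4 := Nat.log_le_self 2 N
  refine ⟨2 ^ i - 1 + 2 ^ i, ⟨by omega, by omega⟩,
    le_trans (b := 4 * 2 ^ i) (by omega) (Nat.mul_le_mul_left _ (cnt fun n hn => ?_))⟩
  have l : Nat.log 2 (2 ^ i - 1 + n + 1) = i := Nat.log_eq_of_pow_le_of_lt_pow (by omega) (by omega)
  have e := e (2 ^ i - 1 + n + 1 - N)
  rw [show N + (2 ^ i - 1 + n + 1 - N) = 2 ^ i - 1 + n + 1 by omega] at e
  refine ⟨e, ?_⟩
  rw [l, q1, show i - Nat.log 2 N = N + j - Nat.log 2 N + ⌊s * q⌋₊ by omega]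
  refine nrm (a (2 ^ i - 1 + n + 1 - N) + (N + j - Nat.log 2 N + ⌊s * q⌋₊ : ℕ) -
    ⌊t - (N + j - Nat.log 2 N : ℕ) / q⌋) ?_
  have f1 := Nat.floor_le (show 0 ≤ s * q from mul_nonneg (Int.fract_nonneg _) q0.le)
  have f2 := Nat.lt_floor_add_one (s * q)
  have : (8⁻¹ / 4 / 2 ^ j : ℝ) = (q : ℝ)⁻¹ := by rw [← q1]; field_simp; norm_num
  have es : s = t - (N + j - Nat.log 2 N : ℕ) / q - ⌊t - (N + j - Nat.log 2 N : ℕ) / q⌋ := rfl
  generalize N + j - Nat.log 2 N = r at es ⊢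
  generalize ⌊t - r / q⌋ = z at es ⊢
  generalize ⌊s * q⌋₊ = w at f1 f2 ⊢
  rw [this, abs_le]
  push_cast
  rw [es] at f1 f2
  constructor <;> refine le_of_mul_le_mul_right ?_ q0 <;> field_simp at f1 f2 ⊢ <;> linarith

theorem meagre (S : Set ℕ) (h0 : 0 ∉ S) (h2 : 2 ∈ S) (h3 : 3 ∈ S) :
    IsMeagre {ω : ℕ → S | Khin (pr fun i => ω i)} := by
  refine mem_of_superset (countable_iInter_mem.2 fun j : ℕ => residual_of_dense_open
    (s := {ω : ℕ → S | ∃ N, Bad (pr fun i => ω i) j N}) ?_ ?_) fun ω h k => not_khin (mem_iInter.1 h) k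
  · refine isOpen_iff_mem_nhds.2 fun ω ⟨N, E, B, e, b, e1, b1, h⟩ => ?_
    have : ∀ᶠ η : ℕ → S in 𝓝 ω, ∀ i ∈ Finset.range (N + 1), η i = ω i :=
      (eventually_all_finset _).2 fun i _ => (continuous_apply i).continuousAt.eventually
        ((isOpen_discrete {ω i}).mem_nhds rfl)
    filter_upwards [this] with η hη
    refine ⟨N, E, B, e, b, e1, b1, fun x hx => (h x hx).imp fun M ⟨m1, m2⟩ =>
      ⟨m1, m2.trans (Nat.mul_le_mul_left _ (Nat.count_mono_left fun n hn g => ?_))⟩⟩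
    rwa [show pr (fun i => η i) n = pr (fun i => ω i) n from Finset.prod_congr rfl fun i hi =>
      congrArg _ (hη i (Finset.range_mono (by have := m1.2; omega) hi))]
  refine fun ω => mem_closure_iff_seq_limit.2 ?_
  choose η a b c using block (fun i => ω i) fun i e => h0 (e ▸ (ω i).2)
  refine ⟨fun N i => ⟨η N j i, ?_⟩, fun N => c N j, tendsto_pi_nhds.2 fun i => tendsto_const_nhds.congr' ?_⟩
  · rcases lt_or_ge i N with h | h
    · exact a N j i h ▸ (ω i).2
    rcases b N j i h with h | h <;> rwa [h]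
  filter_upwards [eventually_gt_atTop i] with N h using Subtype.ext (a N j i h).symm

end Pool.Agent.H.MP_83af8b_an
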